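import Pool.Agent.Y318.MH.Stm
import Pool.Agent.Y318.LF.Pert
import Pool.Agent.Y318.LF.Lift

set_option autoImplicit false

/-! # The gradient perturbation -/

open Set Filter Topology

namespace Pool.Agent.Y318.MH

open Pool.Agent.H728R2.OS Pool.Agent.Y318.LF

/-- the gradient -/
noncomputable def grad {d : ℕ} (H : (Fin d → ℝ) → ℝ) (z : Fin d → ℝ) : Fin d → ℝ :=
  fun i => fderiv ℝ H z (Pi.single i 1)

/-- the square of the euclidean norm -/
def sq {d : ℕ} (v : Fin d → ℝ) : ℝ := ∑ i, v i ^ 2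

theorem sq_nonneg' {d : ℕ} (v : Fin d → ℝ) : 0 ≤ sq v := Finset.sum_nonneg fun i _ => sq_nonneg _

theorem norm_sq_le {d : ℕ} (v : Fin d → ℝ) : ‖v‖ ^ 2 ≤ sq v := by
  have h1 : ‖v‖ ≤ Real.sqrt (sq v) := by
    rw [pi_norm_le_iff_of_nonneg (Real.sqrt_nonneg _)]
    intro i
    rw [Real.norm_eq_abs, ← Real.sqrt_sq_eq_abs]
    exact Real.sqrt_le_sqrt (Finset.single_le_sum (f := fun i => v i ^ 2) (fun i _ => sq_nonneg _)
      (Finset.mem_univ i))
  calc ‖v‖ ^ 2 ≤ Real.sqrt (sq v) ^ 2 := pow_le_pow_left₀ (norm_nonneg _) h1 2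
    _ = sq v := Real.sq_sqrt (sq_nonneg' v)

theorem sq_eq_zero_iff' {d : ℕ} (v : Fin d → ℝ) : sq v = 0 ↔ v = 0 := by
  constructor
  · intro h
    have := norm_sq_le v
    rw [h] at this
    have h2 : ‖v‖ = 0 := by
      have := sq_nonneg ‖v‖
      nlinarith [norm_nonneg v]
    exact norm_eq_zero.1 h2
  · rintro rfl
    simp [sq]

theorem fderiv_apply {d : ℕ} (H : (Fin d → ℝ) → ℝ) (z v : Fin d → ℝ) :
    fderiv ℝ H z v = ∑ i, v i * grad H z i := by
  conv_lhs => rw [← Finset.univ_sum_single v]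
  rw [map_sum]
  refine Finset.sum_congr rfl fun i _ => ?_
  have : (Pi.single i (v i) : Fin d → ℝ) = v i • Pi.single i 1 := by
    ext j
    by_cases h : j = i
    · subst h; simp
    · simp [h]
  rw [this, map_smul]
  rfl

theorem grad_eq_zero {d : ℕ} {H : (Fin d → ℝ) → ℝ} {z : Fin d → ℝ} :
    grad H z = 0 ↔ fderiv ℝ H z = 0 := by
  constructor
  · intro h
    ext v
    rw [fderiv_apply, h]
    simp
  · intro h
    funext i
    simp [grad, h]

theorem fderiv_grad {d : ℕ} (H : (Fin d → ℝ) → ℝ) (z : Fin d → ℝ) :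
    fderiv ℝ H z (grad H z) = sq (grad H z) := by
  rw [fderiv_apply, sq]
  exact Finset.sum_congr rfl fun i _ => by ring

theorem fderiv_per {d : ℕ} {E : Type*} [NormedAddCommGroup E] [NormedSpace ℝ E]
    {H : (Fin d → ℝ) → E} (hp : ∀ z n, IsInt n → H (z + n) = H z)
    (z n : Fin d → ℝ) (hn : IsInt n) : fderiv ℝ H (z + n) = fderiv ℝ H z := by
  have e1 : (fun w => H (w + n)) = H := funext fun w => hp w n hn
  have e2 := fderiv_comp_add_right (𝕜 := ℝ) (f := H) (x := z) n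
  rw [e1] at e2
  exact e2.symm

theorem grad_per {d : ℕ} {H : (Fin d → ℝ) → ℝ} (hp : ∀ z n, IsInt n → H (z + n) = H z)
    (z n : Fin d → ℝ) (hn : IsInt n) : grad H (z + n) = grad H z := by
  funext i
  rw [grad, fderiv_per hp z n hn]
  rfl

theorem grad_contDiff {d : ℕ} {H : (Fin d → ℝ) → ℝ} {r : ℕ∞}
    (hH : ContDiff ℝ (r + 1 : ℕ∞) H) : ContDiff ℝ r (grad H) := by
  rw [contDiff_pi]
  intro i
  have h1 : ContDiff ℝ r (fderiv ℝ H) := hH.fderiv_right (by push_cast; exact le_rfl)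
  exact h1.clm_apply contDiff_const

/-- the gradient step increases `H` -/
theorem step {d : ℕ} {H : (Fin d → ℝ) → ℝ} (hH : ContDiff ℝ 2 H)
    (hp : ∀ z n, IsInt n → H (z + n) = H z) :
    ∃ ε₀ : ℝ, 0 < ε₀ ∧ ∀ ε : ℝ, 0 ≤ ε → ε ≤ ε₀ → ∀ z,
      H z + ε / 2 * sq (grad H z) ≤ H (z + ε • grad H z) := by
  have hd : ContDiff ℝ 1 (fderiv ℝ H) := hH.fderiv_right (by norm_num)
  obtain ⟨L, hL0, hL⟩ := bdd_iter' (fderiv ℝ H) 1 hd (fun z n hn => fderiv_per hp z n hn)
  have hlip : ∀ x y, ‖fderiv ℝ H x - fderiv ℝ H y‖ ≤ L * ‖x - y‖ := fun x y =>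
    Convex.norm_image_sub_le_of_norm_fderiv_le (𝕜 := ℝ) (f := fderiv ℝ H) (s := univ)
      (fun z _ => hd.differentiable one_ne_zero z)
      (fun z _ => by have := hL 1 le_rfl z; rwa [norm_iteratedFDeriv_one] at this)
      convex_univ (mem_univ y) (mem_univ x)
  refine ⟨1 / (2 * (L + 1)), by positivity, fun ε hε0 hε z => ?_⟩
  set v := ε • grad H z with hv
  -- mean value theorem on the segment
  have hderiv : ∀ t : ℝ, HasDerivAt (fun t : ℝ => H (z + t • v)) (fderiv ℝ H (z + t • v) v) t := by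
    intro t
    have h1 : HasFDerivAt H (fderiv ℝ H (z + t • v)) (z + t • v) :=
      (hH.differentiable two_ne_zero _).hasFDerivAt
    have h2 : HasDerivAt (fun t : ℝ => z + t • v) v t := by
      simpa using ((hasDerivAt_id t).smul_const v).const_add z
    exact h1.comp_hasDerivAt t h2
  obtain ⟨t, ht, heq⟩ := exists_hasDerivAt_eq_slope (fun t : ℝ => H (z + t • v))
    (fun t => fderiv ℝ H (z + t • v) v) (zero_lt_one)
    (fun t _ => (hderiv t).continuousAt.continuousWithinAt) (fun t _ => hderiv t)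
  simp only [one_smul, zero_smul, add_zero, sub_zero, div_one] at heq
  have h1 : |fderiv ℝ H (z + t • v) v - fderiv ℝ H z v| ≤ L * ‖v‖ ^ 2 := by
    have h2 : fderiv ℝ H (z + t • v) v - fderiv ℝ H z v =
        (fderiv ℝ H (z + t • v) - fderiv ℝ H z) v := rfl
    rw [h2, ← Real.norm_eq_abs]
    refine (ContinuousLinearMap.le_opNorm _ _).trans ?_
    have h3 := hlip (z + t • v) z
    have h4 : ‖z + t • v - z‖ ≤ ‖v‖ := by
      rw [add_sub_cancel_left, norm_smul, Real.norm_eq_abs, abs_of_pos ht.1]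
      nlinarith [norm_nonneg v, ht.2]
    calc ‖fderiv ℝ H (z + t • v) - fderiv ℝ H z‖ * ‖v‖ ≤ (L * ‖z + t • v - z‖) * ‖v‖ :=
          mul_le_mul_of_nonneg_right h3 (norm_nonneg _)
      _ ≤ (L * ‖v‖) * ‖v‖ := by gcongr
      _ = L * ‖v‖ ^ 2 := by ring
  have h5 : fderiv ℝ H z v = ε * sq (grad H z) := by
    rw [hv, map_smul, fderiv_grad]
    rfl
  have h6 : ‖v‖ ^ 2 ≤ ε ^ 2 * sq (grad H z) := by
    rw [hv, norm_smul, mul_pow, Real.norm_eq_abs, sq_abs]
    exact mul_le_mul_of_nonneg_left (norm_sq_le _) (sq_nonneg _)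
  have h7 := (abs_le.1 h1).1
  have h8 : L * ‖v‖ ^ 2 ≤ L * (ε ^ 2 * sq (grad H z)) := mul_le_mul_of_nonneg_left h6 hL0
  have h9 : L * ε ≤ 1 / 2 := by
    have h10 : ε * (2 * (L + 1)) ≤ 1 := by
      rw [le_div_iff₀ (by positivity)] at hε
      exact hε
    nlinarith
  have h11 : L * (ε ^ 2 * sq (grad H z)) ≤ 1 / 2 * (ε * sq (grad H z)) := by
    have := mul_le_mul_of_nonneg_right h9 (mul_nonneg hε0 (sq_nonneg' (grad H z)))
    nlinarith
  have h12 : H (z + v) = H z + fderiv ℝ H (z + t • v) v := by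
    rw [heq]; ring
  rw [h12]
  nlinarith

end Pool.Agent.Y318.MH
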