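import Pool.Agent.Y318.MH.Stm
import Pool.Agent.Y318.MH.Grad

set_option autoImplicit false

/-!
# Project MH: statements, part 2 (hyperbolicity of the critical points)
-/

open Set Filter Topology

namespace Pool.Agent.Y318.MH

open Pool.Agent.H728R2.OS Pool.Agent.Y318.LF

/-- the second derivative of `H` at `z` as a bilinear form -/
noncomputable def hess {d : ℕ} (H : (Fin d → ℝ) → ℝ) (z : Fin d → ℝ) :
    (Fin d → ℝ) →L[ℝ] (Fin d → ℝ) →L[ℝ] ℝ := fderiv ℝ (fderiv ℝ H) z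

/-- If `F` does not decrease `H`, the points `z` and `F z` are critical and on the same level and the
second derivative at `F z` is nondegenerate, then `F + δ grad H (F)` increases the second derivative
of `H` strictly. -/
def S_HESS : Prop := ∀ (d : ℕ) (H : (Fin d → ℝ) → ℝ) (F : (Fin d → ℝ) → (Fin d → ℝ))
  (z : Fin d → ℝ), ContDiff ℝ 2 H → ContDiff ℝ 1 F → (∀ w, H w ≤ H (F w)) → H (F z) = H z →
  fderiv ℝ H z = 0 → fderiv ℝ H (F z) = 0 → (∀ v, fderiv ℝ F z v = 0 → v = 0) →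
  (∀ v, (∀ w, hess H (F z) v w = 0) → v = 0) →
  ∃ δ₀ : ℝ, 0 < δ₀ ∧ ∀ δ : ℝ, 0 < δ → δ ≤ δ₀ → ∃ c : ℝ, 0 < c ∧ ∀ v : Fin d → ℝ,
    hess H z v v + c * ‖v‖ ^ 2 ≤
      hess H (F z) (fderiv ℝ (fun w => F w + δ • grad H (F w)) z v)
        (fderiv ℝ (fun w => F w + δ • grad H (F w)) z v)

/-- A finite invariant set of a diffeomorphism of the torus whose derivative increases a field of
nondegenerate quadratic forms is hyperbolic. -/
def S_HYP : Prop := S_LIN → ∀ (d : ℕ) (g : Torus d ≃ₜ Torus d) (F G : (Fin d → ℝ) → (Fin d → ℝ)),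
  ContDiff ℝ 1 F → ContDiff ℝ 1 G → IsLift toTorus F g → IsLift toTorus G g.symm →
  ∀ (S : Set (Torus d)), S.Finite → g '' S = S →
  ∀ (B : Torus d → (Fin d → ℝ) →L[ℝ] (Fin d → ℝ) →L[ℝ] ℝ) (c : ℝ), 0 < c →
  (∀ x ∈ S, ∀ v w, B x v w = B x w v) → (∀ x ∈ S, ∀ v, (∀ w, B x v w = 0) → v = 0) →
  (∀ z, toTorus z ∈ S → ∀ v, B (toTorus z) v v + c * ‖v‖ ^ 2 ≤
    B (g (toTorus z)) (fderiv ℝ F z v) (fderiv ℝ F z v)) →
  IsHyperbolic toTorus g S

end Pool.Agent.Y318.MH
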