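import Pool.Agent.Y318.MH.Main
import Pool.Agent.Y318.MH.Stm2
import Pool.Agent.H637R2.TD.Main
import Pool.Agent.H678R3.Attr.Iso
import Pool.Agent.H728R2.OS.S.CRGEN
import Pool.Agent.Y590.MH.Lin
import Pool.Agent.Y547.MH.Hyp

set_option autoImplicit false

/-! # Axiom A perturbations of diffeomorphisms which do not decrease a Morse function -/

open Set Filter Topology MeasureTheory

namespace Pool.Agent.Y318.MH

open Pool.Agent.H728R2.OS Pool.Agent.Y318.LF Pool.Agent.H637R2.TD Pool.Agent.H678R3.Attr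

/-- finitely many critical values: the chain recurrent points are critical -/
theorem Inc.chain_sub {X : Type*} [MetricSpace X] [CompactSpace X] {f φ : X ≃ₜ X} {h : X → ℝ}
    {C : Set X} (H : Inc f φ h C) (hC : C.Finite) : ChainRec (f.trans φ) ⊆ CI f C := by
  intro x hx
  refine H.sub_CI (S := ChainRec (f.trans φ)) (fun x hx => (chainRec_inv _ x).2 hx)
    (fun x hx => (chainRec_inv (f.trans φ) _).1 (by rwa [(f.trans φ).apply_symm_apply]))
    (fun x hx => ?_) hx
  by_contra hne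
  have hlt : h x < h ((f.trans φ) x) := lt_of_le_of_ne (H.g_mono x) (Ne.symm hne)
  obtain ⟨c, hc, hcC⟩ : ∃ c ∈ Ioo (h x) (h ((f.trans φ) x)), c ∉ h '' C :=
    ((Ioo_infinite hlt).sdiff (hC.image h)).nonempty
  set g := f.trans φ with hg
  -- the image of `{h ≥ c}` is in the open set `{h > c}`
  have h1 : IsCompact (g '' {y | c ≤ h y}) :=
    (isClosed_le continuous_const H.cont).isCompact.image g.continuous
  have h2 : IsOpen {y | c < h y} := isOpen_lt continuous_const H.cont
  have h3 : g '' {y | c ≤ h y} ⊆ {y | c < h y} := by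
    rintro _ ⟨y, hy, rfl⟩
    have hy' : c ≤ h y := hy
    by_contra hcon
    have hcon' : h (g y) ≤ c := not_lt.1 hcon
    have h4 : h (g y) = h y := le_antisymm (hcon'.trans hy') (H.g_mono y)
    obtain ⟨h5, h6⟩ := H.g_eq h4
    apply hcC
    refine ⟨f y, h5, ?_⟩
    rw [← h6]
    exact le_antisymm hcon' (h4 ▸ hy')
  obtain ⟨ε, hε, hsub⟩ := h1.exists_thickening_subset_open h2 h3
  -- a neighbourhood of `g x`
  obtain ⟨ε', hε', hball⟩ := Metric.isOpen_iff.1 h2 (g x) hc.2
  obtain ⟨n, a, hn, h0, hN, hstep⟩ := hx (min ε ε') (lt_min hε hε')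
  have key : ∀ i, i < n → c < h (a (i + 1)) := by
    intro i
    induction i with
    | zero =>
      intro hi
      have := hstep 0 hi
      rw [h0] at this
      exact hball (by
        rw [Metric.mem_ball, dist_comm]
        exact this.trans_le (min_le_right _ _))
    | succ i ih =>
      intro hi
      have h7 := ih (by omega)
      have h8 := hstep (i + 1) hi
      refine hsub ?_
      rw [Metric.mem_thickening_iff]
      refine ⟨g (a (i + 1)), mem_image_of_mem _ h7.le, ?_⟩
      rw [dist_comm]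
      exact h8.trans_le (min_le_left _ _)
  have := key (n - 1) (by omega)
  rw [Nat.sub_add_cancel hn, hN] at this
  have h9 := hc.1
  linarith

/-- Morse functions have finitely many critical points. -/
theorem crit_finite {d : ℕ} (h : Torus d → ℝ) (hh : ContDiff ℝ 2 (lf h))
    (hM : ∀ z, fderiv ℝ (lf h) z = 0 → ∀ v, (∀ w, hess (lf h) z v w = 0) → v = 0) :
    (CritPts (lf h)).Finite := by
  set G := lf h with hG
  have hGd : Continuous (fderiv ℝ G) := hh.continuous_fderiv (by norm_num)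
  have hGp : ∀ z n, IsInt n → G (z + n) = G z := fun z n hn => lf_per h z n hn
  set S : Set (Fin d → ℝ) := {z | z ∈ Icc (0 : Fin d → ℝ) 1 ∧ fderiv ℝ G z = 0} with hS
  have hSf : S.Finite := by
    by_contra hinf
    have hcl : IsClosed S := by
      apply isClosed_Icc.inter
      exact isClosed_eq hGd continuous_const
    obtain ⟨x, hx, hacc⟩ := Set.Infinite.exists_accPt_of_subset_isCompact hinf
      (isCompact_Icc (a := (0 : Fin d → ℝ)) (b := 1)) (fun z hz => hz.1)
    have hxS : x ∈ S := by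
      have := hacc.clusterPt.mem_closure
      rwa [hcl.closure_eq] at this
    have hd : HasFDerivAt (fderiv ℝ G) (hess G x) x :=
      ((hh.fderiv_right (m := 1) (by norm_num)).differentiable one_ne_zero x).hasFDerivAt
    have hker : LinearMap.ker (hess G x : (Fin d → ℝ) →ₗ[ℝ] ((Fin d → ℝ) →L[ℝ] ℝ)) = ⊥ := by
      rw [LinearMap.ker_eq_bot']
      intro v hv
      refine hM x hxS.2 v fun w => ?_
      have : hess G x v = 0 := hv
      rw [this]
      rfl
    obtain ⟨K, -, hK⟩ := LinearMap.exists_antilipschitzWith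
      (hess G x : (Fin d → ℝ) →ₗ[ℝ] ((Fin d → ℝ) →L[ℝ] ℝ)) hker
    have h1 := hd.eventually_ne (c := 0) ⟨K, hK⟩
    rw [accPt_iff_frequently_nhdsNE] at hacc
    exact hacc (h1.mono fun w hw hwS => hw hwS.2)
  refine (hSf.image toTorus).subset ?_
  rintro x ⟨z, rfl, hz⟩
  have hn : IsInt (fun i => (⌊z i⌋ : ℝ)) := fun i => ⟨⌊z i⌋, rfl⟩
  have h1 : z = (fun i => Int.fract (z i)) + fun i => (⌊z i⌋ : ℝ) := by
    funext i
    exact (Int.fract_add_floor (z i)).symm
  refine ⟨fun i => Int.fract (z i), ⟨⟨fun i => Int.fract_nonneg _, fun i =>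
    (Int.fract_lt_one _).le⟩, ?_⟩, ?_⟩
  · have h3 := fderiv_per hGp (fun i => Int.fract (z i)) _ hn
    rw [← h1, hz] at h3
    exact h3.symm
  · rw [tor_eq_iff]
    have : z - (fun i => Int.fract (z i)) = fun i => (⌊z i⌋ : ℝ) := by
      funext i
      exact Int.self_sub_fract (z i)
    rw [this]
    exact hn

theorem hess_eq {d : ℕ} (h : Torus d → ℝ) {z w : Fin d → ℝ} (hzw : toTorus z = toTorus w) :
    hess (lf h) z = hess (lf h) w := by
  rw [tor_eq_iff] at hzw
  have h1 : ∀ z n, IsInt n → fderiv ℝ (lf h) (z + n) = fderiv ℝ (lf h) z := fun z n hn =>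
    fderiv_per (fun z n hn => lf_per h z n hn) z n hn
  have := fderiv_per h1 z _ hzw
  rw [add_sub_cancel] at this
  exact this.symm

theorem h_periodic {X : Type*} {f : X → X} {h : X → ℝ} (hm : ∀ x, h x ≤ h (f x)) {x : X} {n : ℕ}
    (hn : 0 < n) (hx : f^[n] x = x) : h (f x) = h x := by
  refine le_antisymm ?_ (hm x)
  have key : ∀ k : ℕ, h (f x) ≤ h (f^[k + 1] x) := by
    intro k
    induction k with
    | zero => exact le_rfl
    | succ k ih =>
      rw [Function.iterate_succ_apply']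
      exact ih.trans (hm _)
  have := key (n - 1)
  rwa [Nat.sub_add_cancel hn, hx] at this

/-- **Axiom A perturbations.** -/
theorem axm (hHESS : S_HESS) {d : ℕ} {r : ℕ∞} (hr : 1 ≤ r) (f : Torus d ≃ₜ Torus d)
    (hf : IsDiffeo toTorus r f) (h : Torus d → ℝ) (hh : ContDiff ℝ (r + 1 : ℕ∞) (lf h))
    (hM : ∀ z, fderiv ℝ (lf h) z = 0 → ∀ v, (∀ w, hess (lf h) z v w = 0) → v = 0)
    (hm : ∀ x, h x ≤ h (f x)) (k : ℕ) (hk : (k : ℕ∞) ≤ r) (ε : ℝ) (hε : 0 < ε) :
    ∃ g : Torus d ≃ₜ Torus d, IsDiffeo toTorus r g ∧ CkClose toTorus k ε f g ∧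
      AxiomA toTorus g ∧ NoCycle g ∧ (Omega g).Finite ∧ Omega g ⊆ CritPts (lf h) ∧
      (∀ x, h x ≤ h (g x)) ∧
      ∃ η : ℝ, 0 < η ∧ ∀ g' : Torus d ≃ₜ Torus d, CkClose toTorus 1 η g g' →
        (ChainRec g').Finite ∧ FinitelyManyAttractors g' := by
  have h2 : ContDiff ℝ 2 (lf h) := hh.of_le (by
    have h3 : (2 : ℕ∞) ≤ r + 1 := by
      calc (2 : ℕ∞) = 1 + 1 := by norm_num
        _ ≤ r + 1 := by gcongr
    have h4 : ((2 : ℕ∞) : WithTop ℕ∞) ≤ ((r + 1 : ℕ∞) : WithTop ℕ∞) := WithTop.coe_le_coe.2 h3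
    exact h4)
  set C := CritPts (lf h) with hCdef
  have hCfin : C.Finite := crit_finite h h2 hM
  have hCI : (CI f C).Finite := hCfin.subset (CI_sub f C)
  obtain ⟨⟨F, hF, hFl⟩, G, hG, hGl⟩ := id hf
  have hF1 : ContDiff ℝ 1 F := hF.of_le (by exact_mod_cast hr)
  have hG1 : ContDiff ℝ 1 G := hG.of_le (by exact_mod_cast hr)
  have hcrit : ∀ z, toTorus z ∈ C → fderiv ℝ (lf h) z = 0 := fun z hz =>
    grad_eq_zero.1 ((mem_crit h z).1 hz)
  -- the derivative of `F` is injective
  have hinj : ∀ z v, fderiv ℝ F z v = 0 → v = 0 := by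
    intro z v hv
    have h3 : ∀ w, G (F w) = w + (G (F 0) - 0) := by
      intro w
      have := int_const (U := fun z => G (F z) - z) ((hG1.continuous.comp hF1.continuous).sub
        continuous_id) (fun z => (tor_eq_iff _ _).1 (by rw [hGl, hFl, f.symm_apply_apply])) w 0
      rw [← this]; abel
    have h4 : HasFDerivAt (fun w => G (F w)) ((fderiv ℝ G (F z)).comp (fderiv ℝ F z)) z :=
      (hG1.differentiable one_ne_zero _).hasFDerivAt.comp z
        (hF1.differentiable one_ne_zero _).hasFDerivAt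
    have h5 : HasFDerivAt (fun w => G (F w)) (ContinuousLinearMap.id ℝ (Fin d → ℝ)) z := by
      have : (fun w => G (F w)) = fun w => w + (G (F 0) - 0) := funext h3
      rw [this]
      exact (hasFDerivAt_id z).add_const _
    have h6 := congrArg (fun L => L v) (h4.unique h5)
    simp only [ContinuousLinearMap.comp_apply, hv, map_zero, ContinuousLinearMap.id_apply] at h6
    exact h6.symm
  -- the data at the points of `CI`
  have hlev : ∀ x ∈ CI f C, h (f x) = h x := by
    intro x hx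
    obtain ⟨n, hn, hnx⟩ := CI_per f hCI hx
    exact h_periodic hm hn hnx
  have hH : ∀ x : Torus d, ∃ δ₀ : ℝ, 0 < δ₀ ∧ (x ∈ CI f C → ∀ δ : ℝ, 0 < δ → δ ≤ δ₀ →
      ∃ c : ℝ, 0 < c ∧ ∀ v : Fin d → ℝ,
      hess (lf h) (rep x) v v + c * ‖v‖ ^ 2 ≤
      hess (lf h) (F (rep x)) (fderiv ℝ (fun w => F w + δ • grad (lf h) (F w)) (rep x) v)
        (fderiv ℝ (fun w => F w + δ • grad (lf h) (F w)) (rep x) v)) := by
    intro x
    by_cases hx : x ∈ CI f C
    · have e1 : toTorus (rep x) = x := toTorus_rep x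
      have e2 : toTorus (F (rep x)) = f x := by rw [hFl, e1]
      have hfx := CI_map f C hx
      obtain ⟨δ₀, hδ0, H⟩ := hHESS d (lf h) F (rep x) h2 hF1
        (fun w => by
          show h (toTorus w) ≤ h (toTorus (F w))
          rw [hFl]; exact hm _)
        (by
          show h (toTorus (F (rep x))) = h (toTorus (rep x))
          rw [e2, e1]; exact hlev x hx)
        (hcrit _ (by rw [e1]; exact CI_sub f C hx)) (hcrit _ (by rw [e2]; exact CI_sub f C hfx))
        (hinj _) (hM _ (hcrit _ (by rw [e2]; exact CI_sub f C hfx)))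
      exact ⟨δ₀, hδ0, fun _ => H⟩
    · exact ⟨1, one_pos, fun h => absurd h hx⟩
  choose δ₁ hδ1 hH using hH
  obtain ⟨δ₂, hδ2, hmin⟩ := fin_min hCI δ₁ fun p _ => hδ1 p
  obtain ⟨δ₀, hδ0, HI⟩ := exists_inc hr f hf h hh hm k hk ε hε
  set δ := min δ₀ δ₂ with hδdef
  have hδ : 0 < δ := lt_min hδ0 hδ2
  obtain ⟨φ, hφl, hI, hgd, hgc⟩ := HI δ hδ (min_le_left _ _)
  set g := f.trans φ with hgdef
  have hc : ∀ x : Torus d, ∃ c : ℝ, 0 < c ∧ (x ∈ CI f C → ∀ v : Fin d → ℝ,
      hess (lf h) (rep x) v v + c * ‖v‖ ^ 2 ≤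
      hess (lf h) (F (rep x)) (fderiv ℝ (fun w => F w + δ • grad (lf h) (F w)) (rep x) v)
        (fderiv ℝ (fun w => F w + δ • grad (lf h) (F w)) (rep x) v)) := by
    intro x
    by_cases hx : x ∈ CI f C
    · obtain ⟨c, hc0, hc⟩ := hH x hx δ hδ ((min_le_right _ _).trans (hmin x hx))
      exact ⟨c, hc0, fun _ => hc⟩
    · exact ⟨1, one_pos, fun h => absurd h hx⟩
  choose c₁ hc1 hc using hc
  obtain ⟨c, hc0, hcmin⟩ := fin_min hCI c₁ fun p _ => hc1 p
  -- the sets
  have hChain : ChainRec g ⊆ CI f C := hI.chain_sub hCfin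
  have hOm : Omega g = CI f C := hI.omega_eq hCI
  have hOC : Omega g ⊆ ChainRec g := omega_subset_chainRec g
  have hCR : ChainRec g = CI f C := Subset.antisymm hChain (hOm ▸ hOC)
  have hPer : Per g = CI f C := by
    refine Subset.antisymm ((per_omega g).trans hOm.le) fun x hx => ?_
    obtain ⟨n, hn, h1⟩ := CI_per f hCI hx
    exact ⟨n, hn, by rw [hI.iter_eq hx, h1]⟩
  have hgf : ∀ x ∈ CI f C, g x = f x := fun x hx => hI.iter_eq hx 1
  have himg : g '' CI f C = CI f C := by
    rw [← hCR]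
    ext y
    constructor
    · rintro ⟨x, hx, rfl⟩
      exact (chainRec_inv g x).2 hx
    · intro hy
      refine ⟨g.symm y, ?_, g.apply_symm_apply y⟩
      rw [← chainRec_inv g, g.apply_symm_apply]
      exact hy
  -- hyperbolicity
  have hF' : ContDiff ℝ r (fun w => F w + δ • grad (lf h) (F w)) :=
    hF.add (((grad_contDiff hh).comp hF).const_smul δ)
  have hF'1 : ContDiff ℝ 1 (fun w => F w + δ • grad (lf h) (F w)) :=
    hF'.of_le (by exact_mod_cast hr)
  have hF'l : IsLift toTorus (fun w => F w + δ • grad (lf h) (F w)) g := fun z => by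
    show toTorus (F z + δ • grad (lf h) (F z)) = φ (f (toTorus z))
    rw [← hFl, ← hφl]
  obtain ⟨-, G', hG', hG'l⟩ := id hgd
  have hhyp : IsHyperbolic toTorus g (CI f C) := by
    refine Pool.Agent.Y547.MH.hyp Pool.Agent.Y590.MH.lin d g _ G' hF'1
      (hG'.of_le (by exact_mod_cast hr)) hF'l hG'l (CI f C) hCI himg
      (fun x => hess (lf h) (rep x)) c hc0 (fun x _ v w => ?_) (fun x hx v hv => ?_)
      (fun z hz v => ?_)
    · exact (h2.contDiffAt.isSymmSndFDerivAt (by simp)).eq v w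
    · exact hM _ (hcrit _ (by rw [toTorus_rep]; exact CI_sub f C hx)) v hv
    · have e1 : toTorus (rep (toTorus z)) = toTorus z := toTorus_rep _
      have h3 := hc (toTorus z) hz v
      have h4 : fderiv ℝ (fun w => F w + δ • grad (lf h) (F w)) (rep (toTorus z)) =
          fderiv ℝ (fun w => F w + δ • grad (lf h) (F w)) z :=
        fderiv_lift (isCov_toTorus d) hF'1.continuous hF'1.continuous g hF'l hF'l _ _ e1
      rw [h4] at h3
      have h5 : hess (lf h) (F (rep (toTorus z))) = hess (lf h) (rep (g (toTorus z))) :=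
        hess_eq h (by rw [hFl, e1, toTorus_rep, hgf _ hz])
      rw [h5] at h3
      refine le_trans ?_ h3
      have h6 := hcmin _ hz
      have h7 := mul_le_mul_of_nonneg_right h6 (sq_nonneg ‖v‖)
      linarith
  refine ⟨g, hgd, hgc, ⟨by rw [hOm]; exact hhyp, by rw [hOm, hPer]; exact subset_closure⟩,
    noCycle_of_chainRec g (by rw [hOm, hCR]), by rw [hOm]; exact hCI,
    by rw [hOm]; exact CI_sub f C, hI.g_mono, ?_⟩
  · obtain ⟨η, hη, H⟩ := finite_open g (by rw [hPer]; exact hCI) (by rw [hCR, hPer])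
      (by rw [hPer]; exact hhyp)
    exact ⟨η, hη, fun g' hg' => ⟨H g' hg', attractors_of_chainRec g' (H g' hg')⟩⟩

end Pool.Agent.Y318.MH
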