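import Pool.Agent.Y318.MH.Phi
import Pool.Agent.Y625.MH.Morse
import Pool.Agent.Y220.MH.Flow
import Pool.Agent.Y210.MH.Las

set_option autoImplicit false

/-! # Vector fields `A grad H` -/

open Set Filter Topology MeasureTheory

namespace Pool.Agent.Y318.MH

open Pool.Agent.H728R2.OS Pool.Agent.Y318.LF

/-- linear combinations of finitely many periodic maps -/
theorem lin_comb {d k : ℕ} {ι : Type} [Fintype ι] (V : ι → (Fin d → ℝ) → (Fin d → ℝ))
    (hV : ∀ i, ContDiff ℝ k (V i)) (hp : ∀ i z n, IsInt n → V i (z + n) = V i z) :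
    ∃ M : ℝ, 0 ≤ M ∧ ∀ c : ι → ℝ, ∀ j ≤ k, ∀ z,
      ‖iteratedFDeriv ℝ j (fun w => ∑ i, c i • V i w) z‖ ≤ M * ‖c‖ := by
  choose M hM0 hM using fun i => bdd_iter' (V i) k (hV i) (hp i)
  refine ⟨∑ i, M i, Finset.sum_nonneg fun i _ => hM0 i, fun c j hj z => ?_⟩
  have hVj : ∀ i, ContDiff ℝ j (V i) := fun i => (hV i).of_le (by exact_mod_cast hj)
  have e : iteratedFDeriv ℝ j (fun w => ∑ i, c i • V i w) z =
      ∑ i, c i • iteratedFDeriv ℝ j (V i) z := by
    have h1 : (fun w => ∑ i, c i • V i w) = ∑ i, (c i • V i) := by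
      funext w
      rw [Finset.sum_apply]
      rfl
    rw [h1]
    have h2 := iteratedFDeriv_sum_apply (𝕜 := ℝ) (u := Finset.univ) (f := fun i => c i • V i)
      (n := j) (x := z) (fun i _ => ((hVj i).const_smul (c i)).contDiffAt)
    rw [h2]
    exact Finset.sum_congr rfl fun i _ => iteratedFDeriv_const_smul_apply (hVj i).contDiffAt
  rw [e, Finset.sum_mul]
  refine (norm_sum_le _ _).trans (Finset.sum_le_sum fun i _ => ?_)
  rw [norm_smul, mul_comm]
  exact mul_le_mul (hM i j hj z) (norm_le_pi_norm c i) (norm_nonneg _) (hM0 i)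

/-- the gradient of `cos`- and `sin`-terms -/
noncomputable def eA {d : ℕ} (i : Fin d) (z : Fin d → ℝ) : Fin d → ℝ :=
  (2 * Real.pi * Real.cos (2 * Real.pi * z i)) • Pi.single i 1

/-- the gradient of `cos`- and `sin`-terms -/
noncomputable def eB {d : ℕ} (i : Fin d) (z : Fin d → ℝ) : Fin d → ℝ :=
  (-(2 * Real.pi * Real.sin (2 * Real.pi * z i))) • Pi.single i 1

theorem coord_contDiff {d : ℕ} {r : ℕ∞} (i : Fin d) :
    ContDiff ℝ r (fun z : Fin d → ℝ => 2 * Real.pi * z i) :=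
  contDiff_const.mul (contDiff_apply ℝ ℝ i)

theorem eA_contDiff {d : ℕ} {r : ℕ∞} (i : Fin d) : ContDiff ℝ r (eA i) :=
  (contDiff_const.mul (coord_contDiff i).cos).smul contDiff_const

theorem eB_contDiff {d : ℕ} {r : ℕ∞} (i : Fin d) : ContDiff ℝ r (eB i) :=
  (contDiff_const.mul (coord_contDiff i).sin).neg.smul contDiff_const

theorem eA_per {d : ℕ} (i : Fin d) (z n : Fin d → ℝ) (hn : IsInt n) : eA i (z + n) = eA i z := by
  obtain ⟨m, hm⟩ := hn i
  have : 2 * Real.pi * (z + n) i = 2 * Real.pi * z i + m * (2 * Real.pi) := by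
    rw [Pi.add_apply, hm]; ring
  rw [eA, eA, this, Real.cos_add_int_mul_two_pi]

theorem eB_per {d : ℕ} (i : Fin d) (z n : Fin d → ℝ) (hn : IsInt n) : eB i (z + n) = eB i z := by
  obtain ⟨m, hm⟩ := hn i
  have : 2 * Real.pi * (z + n) i = 2 * Real.pi * z i + m * (2 * Real.pi) := by
    rw [Pi.add_apply, hm]; ring
  rw [eB, eB, this, Real.sin_add_int_mul_two_pi]

theorem grad_trig {d : ℕ} (a b z : Fin d → ℝ) :
    grad (trig a b) z = ∑ i, (a i • eA i z + b i • eB i z) := by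
  funext j
  rw [grad, (Pool.Agent.Y625.MH.trig_hasFDerivAt a b z).fderiv, Finset.sum_apply,
    ContinuousLinearMap.sum_apply]
  refine Finset.sum_congr rfl fun i _ => ?_
  simp only [ContinuousLinearMap.smul_apply, ContinuousLinearMap.proj_apply, eA, eB, Pi.add_apply,
    Pi.smul_apply, smul_eq_mul]
  by_cases h : i = j
  · subst h
    simp
    ring
  · rw [Pi.single_eq_of_ne h, Pi.single_eq_of_ne (Ne.symm h)]
    simp

theorem grad_add {d : ℕ} {H K : (Fin d → ℝ) → ℝ} (hH : Differentiable ℝ H)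
    (hK : Differentiable ℝ K) (z : Fin d → ℝ) :
    grad (fun w => H w + K w) z = grad H z + grad K z := by
  funext i
  rw [grad, fderiv_fun_add (hH z) (hK z)]
  rfl

/-- **Vector fields `A grad H`.** -/
theorem flow_main (d : ℕ) (r : ℕ∞) (hr : 1 ≤ r)
    (A : (Fin d → ℝ) → (Fin d → ℝ) →L[ℝ] (Fin d → ℝ)) (hA : ContDiff ℝ r A)
    (hAp : ∀ z n, IsInt n → A (z + n) = A z) (hA0 : ∀ z v, 0 ≤ ∑ i, v i * A z v i)
    (H : (Fin d → ℝ) → ℝ) (hH : ContDiff ℝ (r + 1 : ℕ∞) H)
    (hHp : ∀ z n, IsInt n → H (z + n) = H z)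
    (k : ℕ) (hk : (k : ℕ∞) ≤ r) (ε : ℝ) (hε : 0 < ε) :
    ∃ Y : (Fin d → ℝ) → (Fin d → ℝ), ContDiff ℝ r Y ∧ (∀ z n, IsInt n → Y (z + n) = Y z) ∧
      (∀ j ≤ k, ∀ z, ‖iteratedFDeriv ℝ j (fun w => Y w - A w (grad H w)) z‖ < ε) ∧
      ∃ Φ : ℝ → Torus d → Torus d, IsFlowOf Y Φ ∧ (∀ x, Φ 0 x = x) ∧
        (∀ s t x, Φ (s + t) x = Φ s (Φ t x)) ∧ Continuous (Function.uncurry Φ) ∧
        (∃ Z : Set (Torus d), Z.Finite ∧ ∀ x, ∃ p ∈ Z, Tendsto (fun t : ℝ => Φ t x) atTop (𝓝 p)) ∧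
        FiniteAttractorsFlow (volume : Measure (Torus d)) Φ := by
  have hk' : (k : WithTop ℕ∞) ≤ (r : WithTop ℕ∞) := by exact_mod_cast hk
  have h2 : ContDiff ℝ 2 H := hH.of_le (by
    have h3 : (2 : ℕ∞) ≤ r + 1 := by
      calc (2 : ℕ∞) = 1 + 1 := by norm_num
        _ ≤ r + 1 := by gcongr
    have h4 : ((2 : ℕ∞) : WithTop ℕ∞) ≤ ((r + 1 : ℕ∞) : WithTop ℕ∞) := WithTop.coe_le_coe.2 h3
    exact h4)
  have hg := grad_contDiff hH
  -- the basic fields
  let V : Fin d ⊕ Fin d ⊕ Fin d ⊕ Fin d ⊕ Unit → (Fin d → ℝ) → (Fin d → ℝ) :=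
    Sum.elim (fun i z => A z (eA i z)) (Sum.elim (fun i z => A z (eB i z))
      (Sum.elim eA (Sum.elim eB fun _ => grad H)))
  have hVc : ∀ i, ContDiff ℝ r (V i) := by
    rintro (i | i | i | i | i)
    · exact hA.clm_apply (eA_contDiff i)
    · exact hA.clm_apply (eB_contDiff i)
    · exact eA_contDiff i
    · exact eB_contDiff i
    · exact hg
  have hVp : ∀ i z n, IsInt n → V i (z + n) = V i z := by
    rintro (i | i | i | i | i) z n hn
    · show A (z + n) (eA i (z + n)) = A z (eA i z)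
      rw [hAp z n hn, eA_per i z n hn]
    · show A (z + n) (eB i (z + n)) = A z (eB i z)
      rw [hAp z n hn, eB_per i z n hn]
    · exact eA_per i z n hn
    · exact eB_per i z n hn
    · exact grad_per hHp z n hn
  obtain ⟨M, hM0, hM⟩ := lin_comb (k := k) V (fun i => (hVc i).of_le hk') hVp
  set η : ℝ := min 1 (ε / (2 * (M + 1))) with hη
  have hη0 : 0 < η := lt_min one_pos (by positivity)
  obtain ⟨a, b, ha, hb, hfin⟩ := Pool.Agent.Y625.MH.morse d H h2 hHp η hη0
  have htd : Differentiable ℝ (trig a b) := fun z =>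
    (Pool.Agent.Y625.MH.trig_hasFDerivAt a b z).differentiableAt
  have hgr : ∀ z, grad (fun w => H w + trig a b w) z =
      grad H z + ∑ i, (a i • eA i z + b i • eB i z) := fun z => by
    rw [grad_add (h2.differentiable two_ne_zero) htd, grad_trig]
  set K : (Fin d → ℝ) → ℝ := fun w => H w + trig a b w with hK
  have hK1 : ContDiff ℝ 1 K := (h2.add (Pool.Agent.Y625.MH.trig_contDiff a b)).of_le (by norm_num)
  have hKp : ∀ z n, IsInt n → K (z + n) = K z := fun z n hn => by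
    show H (z + n) + trig a b (z + n) = H z + trig a b z
    rw [hHp z n hn, Pool.Agent.Y625.MH.trig_periodic a b z n hn]
  have hKg : ContDiff ℝ r (grad K) := by
    have : grad K = fun z => grad H z + ∑ i, (a i • eA i z + b i • eB i z) := funext hgr
    rw [this]
    exact hg.add (ContDiff.sum fun i _ =>
      ((eA_contDiff i).const_smul (a i)).add ((eB_contDiff i).const_smul (b i)))
  let Y : (Fin d → ℝ) → (Fin d → ℝ) := fun z => A z (grad K z) + (η / 2) • grad K z
  have hYc : ContDiff ℝ r Y := (hA.clm_apply hKg).add (hKg.const_smul _)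
  have hYp : ∀ z n, IsInt n → Y (z + n) = Y z := fun z n hn => by
    show A (z + n) (grad K (z + n)) + (η / 2) • grad K (z + n) = A z (grad K z) + (η / 2) • grad K z
    rw [hAp z n hn, grad_per hKp z n hn]
  have hY1 : ContDiff ℝ 1 Y := hYc.of_le (by exact_mod_cast hr)
  obtain ⟨Φ, hΦ, hΦ0, hΦa, hΦc⟩ := Pool.Agent.Y220.MH.flow d Y hY1 hYp
  have hLas := Pool.Agent.Y210.MH.las d Y K Φ hY1 hYp hK1 hKp (fun z hz => by
      show A z (grad K z) + (η / 2) • grad K z = 0
      rw [grad_eq_zero.2 hz, map_zero, smul_zero, add_zero]) (fun z hz => by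
      have h1 : 0 < sq (grad K z) := lt_of_le_of_ne (sq_nonneg' _) (fun h => hz
        (grad_eq_zero.1 ((sq_eq_zero_iff' _).1 h.symm)))
      have h3 : fderiv ℝ K z (Y z) = ∑ i, grad K z i * A z (grad K z) i + η / 2 * sq (grad K z) := by
        rw [fderiv_apply, sq, Finset.mul_sum, ← Finset.sum_add_distrib]
        refine Finset.sum_congr rfl fun i _ => ?_
        show (A z (grad K z) i + (η / 2) * grad K z i) * grad K z i = _
        ring
      rw [h3]
      have h4 := hA0 z (grad K z)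
      positivity) hfin hΦ hΦ0 hΦa hΦc
  refine ⟨Y, hYc, hYp, fun j hj z => ?_, Φ, hΦ, hΦ0, hΦa, hΦc, ⟨CritPts K, hfin, hLas.1⟩, hLas.2⟩
  -- closeness
  let c : Fin d ⊕ Fin d ⊕ Fin d ⊕ Fin d ⊕ Unit → ℝ :=
    Sum.elim a (Sum.elim b (Sum.elim (fun i => η / 2 * a i) (Sum.elim (fun i => η / 2 * b i)
      fun _ => η / 2)))
  have hc : ‖c‖ ≤ η := by
    rw [pi_norm_le_iff_of_nonneg hη0.le]
    have hη1 : η ≤ 1 := min_le_left _ _
    have hai : ∀ i, ‖a i‖ ≤ η := fun i => (norm_le_pi_norm a i).trans ha.le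
    have hbi : ∀ i, ‖b i‖ ≤ η := fun i => (norm_le_pi_norm b i).trans hb.le
    have hhalf : ∀ x : ℝ, ‖x‖ ≤ η → ‖η / 2 * x‖ ≤ η := by
      intro x hx
      rw [norm_mul, Real.norm_eq_abs, abs_of_pos (by positivity)]
      nlinarith [norm_nonneg x]
    rintro (i | i | i | i | i)
    · exact hai i
    · exact hbi i
    · exact hhalf _ (hai i)
    · exact hhalf _ (hbi i)
    · show ‖η / 2‖ ≤ η
      rw [Real.norm_eq_abs, abs_of_pos (by positivity)]
      linarith
  have heq : (fun w => Y w - A w (grad H w)) = fun w => ∑ i, c i • V i w := by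
    funext w
    simp only [Fintype.sum_sum_type, V, c, Sum.elim_inl, Sum.elim_inr, Finset.univ_unique,
      Finset.sum_singleton]
    show A w (grad K w) + (η / 2) • grad K w - A w (grad H w) = _
    rw [hgr w]
    simp only [map_add, map_sum, map_smul, smul_add, Finset.smul_sum, Finset.sum_add_distrib,
      smul_smul]
    abel
  rw [heq]
  refine (hM c j hj z).trans_lt ?_
  have h5 : η ≤ ε / (2 * (M + 1)) := min_le_right _ _
  rw [le_div_iff₀ (by positivity)] at h5
  nlinarith [mul_le_mul_of_nonneg_left hc hM0]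

end Pool.Agent.Y318.MH
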