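import Pool.Agent.Y318.MH.Grad

set_option autoImplicit false

/-! # The diffeomorphism `z + δ grad H z` and its composition with `f` -/

open Set Filter Topology

namespace Pool.Agent.Y318.MH

open Pool.Agent.H728R2.OS Pool.Agent.Y318.LF

/-- the lift of a function on the torus -/
def lf {d : ℕ} (h : Torus d → ℝ) : (Fin d → ℝ) → ℝ := fun z => h (toTorus z)

theorem lf_per {d : ℕ} (h : Torus d → ℝ) (z n : Fin d → ℝ) (hn : IsInt n) :
    lf h (z + n) = lf h z := by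
  have : toTorus (z + n) = toTorus z := by
    rw [eq_comm, tor_eq_iff, add_sub_cancel_left]
    exact hn
  rw [lf, lf, this]

theorem surj_toTorus {d : ℕ} (x : Torus d) : ∃ z, toTorus z = x := by
  choose z hz using fun i => QuotientAddGroup.mk_surjective (x i)
  exact ⟨z, funext hz⟩

theorem grad_eq_of_eq {d : ℕ} (h : Torus d → ℝ) {z w : Fin d → ℝ} (hzw : toTorus z = toTorus w) :
    grad (lf h) z = grad (lf h) w := by
  rw [tor_eq_iff] at hzw
  have := grad_per (lf_per h) z _ hzw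
  rw [add_sub_cancel] at this
  exact this.symm

theorem mem_crit {d : ℕ} (h : Torus d → ℝ) (z : Fin d → ℝ) :
    toTorus z ∈ CritPts (lf h) ↔ grad (lf h) z = 0 := by
  constructor
  · rintro ⟨w, hw, h0⟩
    rw [← grad_eq_of_eq h hw]
    exact grad_eq_zero.2 h0
  · intro h0
    exact ⟨z, rfl, grad_eq_zero.1 h0⟩

theorem exists_phi {d : ℕ} {r : ℕ∞} (hr : 1 ≤ r) (h : Torus d → ℝ)
    (hh : ContDiff ℝ (r + 1 : ℕ∞) (lf h)) :
    ∃ δ₀ : ℝ, 0 < δ₀ ∧ ∀ δ : ℝ, 0 < δ → δ ≤ δ₀ → ∃ φ : Torus d ≃ₜ Torus d,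
      IsLift toTorus (fun z => z + δ • grad (lf h) z) φ ∧ IsDiffeo toTorus r φ ∧
      (∀ x, h x ≤ h (φ x)) ∧ (∀ x, h (φ x) = h x → x ∈ CritPts (lf h)) ∧
      ∀ x ∈ CritPts (lf h), φ x = x := by
  have h2 : ContDiff ℝ 2 (lf h) := hh.of_le (by
    have h3 : (2 : ℕ∞) ≤ r + 1 := by
      calc (2 : ℕ∞) = 1 + 1 := by norm_num
        _ ≤ r + 1 := by gcongr
    have h4 : ((2 : ℕ∞) : WithTop ℕ∞) ≤ ((r + 1 : ℕ∞) : WithTop ℕ∞) := WithTop.coe_le_coe.2 h3
    exact h4)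
  obtain ⟨ε₀, hε0, hstep⟩ := step h2 (lf_per h)
  have hg := grad_contDiff hh
  obtain ⟨M, hM0, hM⟩ := bdd_iter' (grad (lf h)) 1 (hg.of_le (by exact_mod_cast hr))
    (fun z n hn => grad_per (lf_per h) z n hn)
  refine ⟨min ε₀ (1 / (2 * (M + 1))), lt_min hε0 (by positivity), fun δ hδ hδ' => ?_⟩
  have hU : ContDiff ℝ r (fun z => δ • grad (lf h) z) := hg.const_smul δ
  have hd : ∀ z, ‖fderiv ℝ (fun z => δ • grad (lf h) z) z‖ ≤ 1 / 2 := by
    intro z
    have hdz : DifferentiableAt ℝ (grad (lf h)) z := by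
      have : ContDiff ℝ 1 (grad (lf h)) := hg.of_le (by exact_mod_cast hr)
      exact this.differentiable one_ne_zero z
    have e1 : fderiv ℝ (fun z => δ • grad (lf h) z) z = δ • fderiv ℝ (grad (lf h)) z :=
      (hdz.hasFDerivAt.const_smul δ).fderiv
    rw [e1, norm_smul, Real.norm_eq_abs, abs_of_pos hδ]
    have e2 : ‖fderiv ℝ (grad (lf h)) z‖ ≤ M := by
      have := hM 1 le_rfl z
      rwa [norm_iteratedFDeriv_one] at this
    have e3 : δ ≤ 1 / (2 * (M + 1)) := hδ'.trans (min_le_right _ _)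
    rw [le_div_iff₀ (by positivity)] at e3
    nlinarith [norm_nonneg (fderiv ℝ (grad (lf h)) z)]
  obtain ⟨A, hA, hAs⟩ := homeo_of_small hr _ hU hd
  have hper : ∀ z n, IsInt n → (z + n) + δ • grad (lf h) (z + n) = z + δ • grad (lf h) z + n := by
    intro z n hn
    rw [grad_per (lf_per h) z n hn]
    abel
  obtain ⟨φ, hφl, hφd⟩ := desc d r (fun z => z + δ • grad (lf h) z)
    ⟨contDiff_id.add hU, hper, A.symm, hAs, fun z => by rw [← hA z, A.symm_apply_apply],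
      fun z => by rw [← hA, A.apply_symm_apply]⟩
  have hst : ∀ z, lf h z + δ / 2 * sq (grad (lf h) z) ≤ h (φ (toTorus z)) := by
    intro z
    have := hstep δ hδ.le (hδ'.trans (min_le_left _ _)) z
    rw [← hφl z]
    exact this
  refine ⟨φ, hφl, hφd, fun x => ?_, fun x hx => ?_, fun x hx => ?_⟩
  · obtain ⟨z, rfl⟩ := surj_toTorus x
    have := hst z
    have h0 : 0 ≤ δ / 2 * sq (grad (lf h) z) := mul_nonneg (by linarith) (sq_nonneg' _)
    have e : lf h z = h (toTorus z) := rfl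
    linarith
  · obtain ⟨z, rfl⟩ := surj_toTorus x
    have := hst z
    have e : lf h z = h (toTorus z) := rfl
    rw [hx, e] at this
    have h0 : sq (grad (lf h) z) = 0 := by
      have := sq_nonneg' (grad (lf h) z)
      by_contra hne
      have : 0 < sq (grad (lf h) z) := lt_of_le_of_ne this (Ne.symm hne)
      have : 0 < δ / 2 * sq (grad (lf h) z) := by positivity
      linarith
    exact (mem_crit h z).2 ((sq_eq_zero_iff' _).1 h0)
  · obtain ⟨z, rfl⟩ := surj_toTorus x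
    rw [mem_crit] at hx
    rw [← hφl z]
    show toTorus (z + δ • grad (lf h) z) = toTorus z
    rw [hx, smul_zero, add_zero]

theorem isDiffeo_trans {d : ℕ} {r : ℕ∞} {f g : Torus d ≃ₜ Torus d} (hf : IsDiffeo toTorus r f)
    (hg : IsDiffeo toTorus r g) : IsDiffeo toTorus r (f.trans g) := by
  obtain ⟨⟨F, hF, hFl⟩, F', hF', hFl'⟩ := hf
  obtain ⟨⟨G, hG, hGl⟩, G', hG', hGl'⟩ := hg
  refine ⟨⟨G ∘ F, hG.comp hF, fun z => ?_⟩, F' ∘ G', hF'.comp hG', fun z => ?_⟩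
  · show toTorus (G (F z)) = g (f (toTorus z))
    rw [hGl, hFl]
  · show toTorus (F' (G' z)) = f.symm (g.symm (toTorus z))
    rw [hFl', hGl']

/-- **The perturbation.** -/
theorem exists_pert {d : ℕ} {r : ℕ∞} (hr : 1 ≤ r) (f : Torus d ≃ₜ Torus d)
    (hf : IsDiffeo toTorus r f) (h : Torus d → ℝ) (hh : ContDiff ℝ (r + 1 : ℕ∞) (lf h))
    (k : ℕ) (hk : (k : ℕ∞) ≤ r) (ε : ℝ) (hε : 0 < ε) :
    ∃ δ₀ : ℝ, 0 < δ₀ ∧ ∀ δ : ℝ, 0 < δ → δ ≤ δ₀ → ∃ φ : Torus d ≃ₜ Torus d,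
      IsLift toTorus (fun z => z + δ • grad (lf h) z) φ ∧
      (∀ x, h x ≤ h (φ x)) ∧ (∀ x, h (φ x) = h x → x ∈ CritPts (lf h)) ∧
      (∀ x ∈ CritPts (lf h), φ x = x) ∧
      IsDiffeo toTorus r (f.trans φ) ∧ CkClose toTorus k ε f (f.trans φ) := by
  obtain ⟨δ₀, hδ0, H⟩ := exists_phi hr h hh
  obtain ⟨F, hF, hFl⟩ := hf.1
  have hg := grad_contDiff hh
  have hG : ContDiff ℝ r (fun z => grad (lf h) (F z)) := hg.comp hF
  obtain ⟨M, hM0, hM⟩ := bdd_iter' (fun z => grad (lf h) (F z)) k (hG.of_le (by exact_mod_cast hk))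
    (fun z n hn => grad_eq_of_eq h (by
      rw [hFl, hFl]
      congr 1
      rw [eq_comm, tor_eq_iff, add_sub_cancel_left]
      exact hn))
  refine ⟨min δ₀ (ε / (2 * (M + 1))), lt_min hδ0 (by positivity), fun δ hδ hδ' => ?_⟩
  obtain ⟨φ, h1, h2, h3, h4, h5⟩ := H δ hδ (hδ'.trans (min_le_left _ _))
  refine ⟨φ, h1, h3, h4, h5, isDiffeo_trans hf h2, F, fun z => F z + δ • grad (lf h) (F z),
    hF.of_le (by exact_mod_cast hk), (hF.add (hG.const_smul δ)).of_le (by exact_mod_cast hk),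
    hFl, fun z => ?_, fun j hj z => ?_⟩
  · show toTorus (F z + δ • grad (lf h) (F z)) = φ (f (toTorus z))
    rw [← hFl, ← h1]
  · have e1 : (fun w => F w + δ • grad (lf h) (F w) - F w) =
        δ • fun w => grad (lf h) (F w) := by
      funext w
      show F w + δ • grad (lf h) (F w) - F w = δ • grad (lf h) (F w)
      abel
    rw [e1]
    have e2 : iteratedFDeriv ℝ j (δ • fun w => grad (lf h) (F w)) z =
        δ • iteratedFDeriv ℝ j (fun w => grad (lf h) (F w)) z :=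
      iteratedFDeriv_const_smul_apply ((hG.of_le (show ((j : ℕ) : WithTop ℕ∞) ≤ (r : WithTop ℕ∞) from
        by exact_mod_cast ((show ((j : ℕ) : ℕ∞) ≤ (k : ℕ∞) from by exact_mod_cast hj).trans hk))).contDiffAt)
    rw [e2, norm_smul, Real.norm_eq_abs, abs_of_pos hδ]
    have e3 : δ ≤ ε / (2 * (M + 1)) := hδ'.trans (min_le_right _ _)
    rw [le_div_iff₀ (by positivity)] at e3
    have e4 := hM j hj z
    nlinarith [norm_nonneg (iteratedFDeriv ℝ j (fun w => grad (lf h) (F w)) z)]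

end Pool.Agent.Y318.MH
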