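import Pool.Agent.Y318.MH.Dyn
import Pool.Agent.Y318.MH.Phi

set_option autoImplicit false

/-! # Diffeomorphisms of the torus which do not decrease a function -/

open Set Filter Topology MeasureTheory

namespace Pool.Agent.Y318.MH

open Pool.Agent.H728R2.OS Pool.Agent.H728R2.FA Pool.Agent.Y318.LF

theorem cont_of_lf {d : ℕ} {h : Torus d → ℝ} (hh : Continuous (lf h)) : Continuous h := by
  have hq : Topology.IsQuotientMap (toTorus : (Fin d → ℝ) → Torus d) := by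
    have ho : IsOpenQuotientMap ((↑) : ℝ → UnitAddCircle) := QuotientAddGroup.isOpenQuotientMap_mk
    exact (IsOpenQuotientMap.piMap (fun _ : Fin d => ho)).isQuotientMap
  rw [hq.continuous_iff]
  exact hh

/-- **The perturbation, with its properties.** -/
theorem exists_inc {d : ℕ} {r : ℕ∞} (hr : 1 ≤ r) (f : Torus d ≃ₜ Torus d)
    (hf : IsDiffeo toTorus r f) (h : Torus d → ℝ) (hh : ContDiff ℝ (r + 1 : ℕ∞) (lf h))
    (hm : ∀ x, h x ≤ h (f x)) (k : ℕ) (hk : (k : ℕ∞) ≤ r) (ε : ℝ) (hε : 0 < ε) :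
    ∃ δ₀ : ℝ, 0 < δ₀ ∧ ∀ δ : ℝ, 0 < δ → δ ≤ δ₀ → ∃ φ : Torus d ≃ₜ Torus d,
      IsLift toTorus (fun z => z + δ • grad (lf h) z) φ ∧ Inc f φ h (CritPts (lf h)) ∧
      IsDiffeo toTorus r (f.trans φ) ∧ CkClose toTorus k ε f (f.trans φ) := by
  obtain ⟨δ₀, hδ0, H⟩ := exists_pert hr f hf h hh k hk ε hε
  refine ⟨δ₀, hδ0, fun δ hδ hδ' => ?_⟩
  obtain ⟨φ, h1, h2, h3, h4, h5, h6⟩ := H δ hδ hδ'
  exact ⟨φ, h1, ⟨cont_of_lf hh.continuous, hm, h2, h3, h4⟩, h5, h6⟩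

/-- **Finitude of attractors.** -/
theorem finitude {d : ℕ} {r : ℕ∞} (hr : 1 ≤ r) (f : Torus d ≃ₜ Torus d)
    (hf : IsDiffeo toTorus r f) (h : Torus d → ℝ) (hh : ContDiff ℝ (r + 1 : ℕ∞) (lf h))
    (hm : ∀ x, h x ≤ h (f x)) {m : ℕ} (M : Fin m → Set (Torus d)) (hcl : ∀ i, IsClosed (M i))
    (hinv : ∀ i, f '' M i = M i) (hdis : ∀ i j, i ≠ j → Disjoint (M i) (M j))
    (hC : ∀ i, M i ⊆ CritPts (lf h))
    (htr : ∀ i, ∃ x ∈ M i, M i ⊆ closure (range fun n : ℕ => f^[n] x))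
    (hcov : ∀ x, (∀ n : ℕ, f^[n] x ∈ CritPts (lf h) ∧ f.symm^[n] x ∈ CritPts (lf h)) →
      ∃ i, x ∈ M i)
    (k : ℕ) (hk : (k : ℕ∞) ≤ r) (ε : ℝ) (hε : 0 < ε) :
    ∃ g : Torus d ≃ₜ Torus d, IsDiffeo toTorus r g ∧ CkClose toTorus k ε f g ∧
      (∀ p, ∃ i, omegaLim g p ⊆ M i) ∧ FiniteAttractors (volume : Measure (Torus d)) g := by
  obtain ⟨δ₀, hδ0, H⟩ := exists_inc hr f hf h hh hm k hk ε hε
  obtain ⟨φ, -, h1, h2, h3⟩ := H δ₀ hδ0 le_rfl
  have h4 := h1.finite_attractors (volume : Measure (Torus d)) M hcl hinv hdis hC htr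
    (fun x hx => mem_iUnion.2 (hcov x hx))
  exact ⟨_, h2, h3, h4.1, h4.2⟩

instance infinite_circ : Infinite UnitAddCircle := by
  have : Fact ((0 : ℝ) < 1) := ⟨one_pos⟩
  have h1 : Infinite (Ico (0 : ℝ) (0 + 1)) := by
    rw [zero_add]
    exact (Set.Ico_infinite one_pos).to_subtype
  exact Infinite.of_injective (AddCircle.equivIco (1 : ℝ) 0).symm (Equiv.injective _)

/-- **Stable diffeomorphisms.** -/
theorem stable {d : ℕ} {r : ℕ∞} (hr : 1 ≤ r) (f : Torus d ≃ₜ Torus d)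
    (hf : IsDiffeo toTorus r f) (h : Torus d → ℝ) (hh : ContDiff ℝ (r + 1 : ℕ∞) (lf h))
    (hm : ∀ x, h x ≤ h (f x))
    (hfin : {x | ∀ n : ℕ, f^[n] x ∈ CritPts (lf h) ∧ f.symm^[n] x ∈ CritPts (lf h)}.Finite)
    (hs : OmegaStable toTorus r f) :
    (Omega f).Finite ∧ Omega f ⊆ CritPts (lf h) ∩ Per f ∧ (0 < d → ∃ x, h x < h (f x)) := by
  obtain ⟨k, hk, ε, hε, hs⟩ := hs
  obtain ⟨δ₀, hδ0, H⟩ := exists_inc hr f hf h hh hm k hk ε hε
  obtain ⟨φ, -, h1, h2, h3⟩ := H δ₀ hδ0 le_rfl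
  have h4 := h1.omega_of_conj hfin (hs _ h2 h3)
  refine ⟨h4.1, h4.2.2.1, fun hd => ?_⟩
  by_contra hcon
  push Not at hcon
  have heq : ∀ x, h (f x) = h x := fun x => le_antisymm (hcon x) (hm x)
  have hc : Continuous h := h1.cont
  -- `h` takes finitely many values
  have hrange : (range h).Finite := by
    refine (h4.1.image h).subset ?_
    rintro _ ⟨p, rfl⟩
    have key : ∀ n : ℕ, h (f^[n] p) = h p := by
      intro n
      induction n with
      | zero => rfl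
      | succ N ih => rw [Function.iterate_succ_apply', heq, ih]
    obtain ⟨y, -, hy⟩ := exists_omegaLim f p {x | h x = h p} (isClosed_eq hc continuous_const)
      (fun N => ⟨N, le_rfl, key N⟩)
    have hyK : h y = h p := by
      by_contra hne
      have hU : {x | h x ≠ h p} ∈ 𝓝 y := (isOpen_ne_fun hc continuous_const).mem_nhds hne
      obtain ⟨n, -, hn⟩ := hy _ hU 0
      exact hn (key n)
    exact ⟨y, omegaLim_omega f p hy, hyK⟩
  have hconst : ∀ x y, h x = h y := by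
    intro x y
    by_contra hne
    rcases lt_or_gt_of_ne hne with hlt | hlt
    · exact Set.Icc_infinite hlt (hrange.subset (intermediate_value_univ x y hc))
    · exact Set.Icc_infinite hlt (hrange.subset (intermediate_value_univ y x hc))
  have hcrit : ∀ x : Torus d, x ∈ CritPts (lf h) := by
    intro x
    obtain ⟨z, rfl⟩ := surj_toTorus x
    refine ⟨z, rfl, ?_⟩
    have : lf h = fun _ => lf h z := funext fun w => hconst _ _
    rw [this]
    exact fderiv_const_apply _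
  have huniv : {x | ∀ n : ℕ, f^[n] x ∈ CritPts (lf h) ∧ f.symm^[n] x ∈ CritPts (lf h)} = univ := by
    ext x
    exact ⟨fun _ => trivial, fun _ n => ⟨hcrit _, hcrit _⟩⟩
  rw [huniv] at hfin
  have : Nonempty (Fin d) := ⟨⟨0, hd⟩⟩
  have hinf : Infinite (Torus d) := by
    show Infinite (Fin d → UnitAddCircle)
    infer_instance
  exact Set.infinite_univ hfin

end Pool.Agent.Y318.MH
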