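import Pool.Agent.H728R2.FA.Defs
import Pool.Agent.Y318.LF.Defs

set_option autoImplicit false

/-!
# Project MH: systems which do not decrease a Morse function. Statements
-/

open Set Filter Topology MeasureTheory

namespace Pool.Agent.Y318.MH

open Pool.Agent.H728R2.OS Pool.Agent.Y318.LF

/-! ## MH-LIN -/

/-- the products `A (f^(n-1) x) ∘ … ∘ A (f x) ∘ A x` -/
def cocy {X V : Type*} [NormedAddCommGroup V] [NormedSpace ℝ V] (f : X → X) (A : X → V →L[ℝ] V) :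
    ℕ → X → V →L[ℝ] V
  | 0, _ => ContinuousLinearMap.id ℝ V
  | n + 1, x => (cocy f A n (f x)).comp (A x)

/-- A linear cocycle over a permutation of a finite set which increases a nondegenerate quadratic
form is hyperbolic. -/
def S_LIN : Prop := ∀ (V : Type) [NormedAddCommGroup V] [NormedSpace ℝ V] [FiniteDimensional ℝ V]
  (X : Type) (f : X ≃ X) (S : Set X), S.Finite → f '' S = S →
  ∀ (A : X → V ≃L[ℝ] V) (B : X → V →L[ℝ] V →L[ℝ] ℝ) (δ : ℝ), 0 < δ →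
  (∀ x ∈ S, ∀ v w, B x v w = B x w v) → (∀ x ∈ S, ∀ v, (∀ w, B x v w = 0) → v = 0) →
  (∀ x ∈ S, ∀ v, B x v v + δ * ‖v‖ ^ 2 ≤ B (f x) (A x v) (A x v)) →
  ∃ (P : X → V →L[ℝ] V) (c μ : ℝ), 0 < c ∧ 0 < μ ∧ μ < 1 ∧
    (∀ x ∈ S, (P x).comp (P x) = P x) ∧
    (∀ x ∈ S, ∀ v, A x (P x v) = P (f x) (A x v)) ∧
    ∀ (m : ℕ) (x : X), x ∈ S → ∀ v : V,
      ‖cocy f (fun y => (A y : V →L[ℝ] V)) m x (P x v)‖ ≤ c * μ ^ m * ‖P x v‖ ∧
      ‖cocy f.symm (fun y => ((A (f.symm y)).symm : V →L[ℝ] V)) m x (v - P x v)‖ ≤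
        c * μ ^ m * ‖v - P x v‖

/-! ## MH-MORSE -/

/-- a trigonometric polynomial of degree one -/
noncomputable def trig {d : ℕ} (a b : Fin d → ℝ) (z : Fin d → ℝ) : ℝ :=
  ∑ i, (a i * Real.sin (2 * Real.pi * z i) + b i * Real.cos (2 * Real.pi * z i))

/-- the points of the torus over critical points of `H` -/
def CritPts {d : ℕ} (H : (Fin d → ℝ) → ℝ) : Set (Torus d) :=
  {x | ∃ z, toTorus z = x ∧ fderiv ℝ H z = 0}

/-- Every function of class `C^2` on the torus becomes a function with finitely many critical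
points after adding an arbitrarily small trigonometric polynomial. -/
def S_MORSE : Prop := ∀ (d : ℕ) (H : (Fin d → ℝ) → ℝ), ContDiff ℝ 2 H →
  (∀ z n, IsInt n → H (z + n) = H z) → ∀ ε : ℝ, 0 < ε →
  ∃ a b : Fin d → ℝ, ‖a‖ < ε ∧ ‖b‖ < ε ∧ (CritPts fun z => H z + trig a b z).Finite

/-! ## MH-FLOW and MH-LAS -/

/-- `Φ` is the flow on the torus of the vector field with lift `Y`: for every `z ∈ ℝ^d` the curve
`t ↦ Φ t (toTorus z)` is the projection of the solution `γ` of `γ' = Y(γ)`, `γ 0 = z`, which is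
defined for all times. -/
def IsFlowOf {d : ℕ} (Y : (Fin d → ℝ) → (Fin d → ℝ)) (Φ : ℝ → Torus d → Torus d) : Prop :=
  ∀ z : Fin d → ℝ, ∃ γ : ℝ → (Fin d → ℝ), γ 0 = z ∧ (∀ t, HasDerivAt γ (Y (γ t)) t) ∧
    ∀ t, Φ t (toTorus z) = toTorus (γ t)

/-- The `ω`-limit set of the forward orbit of `p` under the flow `Φ`. -/
def omegaFlow {X : Type*} [TopologicalSpace X] (Φ : ℝ → X → X) (p : X) : Set X :=
  {q | ∀ U ∈ 𝓝 q, ∀ T : ℝ, ∃ t : ℝ, T ≤ t ∧ Φ t p ∈ U}

/-- `Λ` is an attractor of the flow `Φ`: it is invariant, it contains a point whose forward orbit is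
dense in `Λ`, and its basin `{p | ω(p) ⊆ Λ}` has positive measure. -/
def IsAttractorFlow {X : Type*} [TopologicalSpace X] [MeasurableSpace X] (μ : Measure X)
    (Φ : ℝ → X → X) (Λ : Set X) : Prop :=
  (∀ t, Φ t '' Λ = Λ) ∧ (∃ x ∈ Λ, Λ ⊆ closure ((fun t => Φ t x) '' Ici 0)) ∧
    0 < μ {p | omegaFlow Φ p ⊆ Λ}

/-- The flow `Φ` has finitely many attractors covering the space: the union of their basins has
full measure. -/
def FiniteAttractorsFlow {X : Type*} [TopologicalSpace X] [MeasurableSpace X] (μ : Measure X)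
    (Φ : ℝ → X → X) : Prop :=
  ∃ (k : ℕ) (Λ : Fin k → Set X), (∀ i, IsAttractorFlow μ Φ (Λ i)) ∧
    μ {p | ∀ i, ¬ omegaFlow Φ p ⊆ Λ i} = 0

/-- Periodic vector fields of class `C^1` have a flow on the torus. -/
def S_FLOW : Prop := ∀ (d : ℕ) (Y : (Fin d → ℝ) → (Fin d → ℝ)), ContDiff ℝ 1 Y →
  (∀ z n, IsInt n → Y (z + n) = Y z) →
  ∃ Φ : ℝ → Torus d → Torus d, IsFlowOf Y Φ ∧ (∀ x, Φ 0 x = x) ∧
    (∀ s t x, Φ (s + t) x = Φ s (Φ t x)) ∧ Continuous (Function.uncurry Φ)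

/-- LaSalle's principle: if `H` increases along the nonconstant orbits of `Y` and has finitely many
critical points, every orbit converges to a critical point and there are finitely many
attractors. -/
def S_LAS : Prop := ∀ (d : ℕ) (Y : (Fin d → ℝ) → (Fin d → ℝ)) (H : (Fin d → ℝ) → ℝ)
  (Φ : ℝ → Torus d → Torus d), ContDiff ℝ 1 Y → (∀ z n, IsInt n → Y (z + n) = Y z) →
  ContDiff ℝ 1 H → (∀ z n, IsInt n → H (z + n) = H z) →
  (∀ z, fderiv ℝ H z = 0 → Y z = 0) → (∀ z, fderiv ℝ H z ≠ 0 → 0 < fderiv ℝ H z (Y z)) →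
  (CritPts H).Finite → IsFlowOf Y Φ → (∀ x, Φ 0 x = x) →
  (∀ s t x, Φ (s + t) x = Φ s (Φ t x)) → Continuous (Function.uncurry Φ) →
  (∀ x, ∃ p ∈ CritPts H, Tendsto (fun t : ℝ => Φ t x) atTop (𝓝 p)) ∧
    FiniteAttractorsFlow (volume : Measure (Torus d)) Φ

end Pool.Agent.Y318.MH
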